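import Mathlib
import Pool.Agent.H93.SRS

/-!
Shift radix systems in dimension three: the edge `t = -1` of the surface
`E_3^(C) = {(t, s t + 1, s + t) : -2 < s < 2, -1 ≤ t ≤ 1}`.
-/

set_option autoImplicit false

namespace Pool.Agent.Results.MP_e7d72a_nt.EdgeDimThree

open Polynomial Pool.Agent.H93.SRS

/-- The parameter `(t, s t + 1, s + t)` with `t = -1`. -/
def edge (s : ℝ) : Fin 3 → ℝ := ![-1, 1 - s, s - 1]

theorem chi_edge (s : ℝ) :
    chi (edge s) = (X - 1) * (X ^ 2 + C (s : ℂ) * X + 1) := by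
  unfold chi edge
  simp [Fin.sum_univ_three]
  ring

/-- first coordinate of the orbit -/
noncomputable def fst (r : Fin 3 → ℝ) (z : Fin 3 → ℤ) (n : ℕ) : ℤ := (tau r)^[n] z 0

theorem tau_zero (r : Fin 3 → ℝ) (z : Fin 3 → ℤ) : tau r z 0 = z 1 := by
  unfold tau; simp

theorem tau_one (r : Fin 3 → ℝ) (z : Fin 3 → ℤ) : tau r z 1 = z 2 := by
  unfold tau; simp

theorem tau_two (r : Fin 3 → ℝ) (z : Fin 3 → ℤ) :
    tau r z 2 = -⌊r 0 * z 0 + r 1 * z 1 + r 2 * z 2⌋ := by
  unfold tau; simp [Fin.sum_univ_three]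

theorem iter_one (r : Fin 3 → ℝ) (z : Fin 3 → ℤ) (n : ℕ) :
    (tau r)^[n] z 1 = fst r z (n + 1) := by
  unfold fst
  rw [Function.iterate_succ_apply', tau_zero]

theorem iter_two (r : Fin 3 → ℝ) (z : Fin 3 → ℤ) (n : ℕ) :
    (tau r)^[n] z 2 = fst r z (n + 2) := by
  rw [← iter_one, Function.iterate_succ_apply', tau_one]

theorem fst_rec (r : Fin 3 → ℝ) (z : Fin 3 → ℤ) (n : ℕ) :
    fst r z (n + 3) = -⌊r 0 * fst r z n + r 1 * fst r z (n + 1) + r 2 * fst r z (n + 2)⌋ := by
  have h := iter_two r z (n + 1)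
  rw [show n + 1 + 2 = n + 3 by ring] at h
  rw [← h, Function.iterate_succ_apply', tau_two, iter_one, iter_two]
  rfl

theorem iter_eq (r : Fin 3 → ℝ) (z : Fin 3 → ℤ) (n : ℕ) :
    (tau r)^[n] z = ![fst r z n, fst r z (n + 1), fst r z (n + 2)] := by
  funext i
  fin_cases i
  · rfl
  · exact iter_one r z n
  · exact iter_two r z n

/-- differences -/
noncomputable def dif (s : ℝ) (z : Fin 3 → ℤ) (n : ℕ) : ℤ :=
  fst (edge s) z (n + 1) - fst (edge s) z n

theorem dif_bounds (s : ℝ) (z : Fin 3 → ℤ) (n : ℕ) :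
    0 ≤ (dif s z (n + 2) : ℝ) + s * dif s z (n + 1) + dif s z n ∧
      (dif s z (n + 2) : ℝ) + s * dif s z (n + 1) + dif s z n < 1 := by
  have h := fst_rec (edge s) z n
  have e0 : edge s 0 = -1 := rfl
  have e1 : edge s 1 = 1 - s := rfl
  have e2 : edge s 2 = s - 1 := rfl
  rw [e0, e1, e2] at h
  set x := (-1 : ℝ) * fst (edge s) z n + (1 - s) * fst (edge s) z (n + 1) +
    (s - 1) * fst (edge s) z (n + 2) with hx
  have h1 := Int.floor_le x
  have h2 := Int.lt_floor_add_one x
  have h3 : (⌊x⌋ : ℝ) = -(fst (edge s) z (n + 3) : ℝ) := by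
    rw [h]; push_cast; ring
  rw [h3] at h1 h2
  unfold dif
  push_cast
  constructor
  · rw [show n + 2 + 1 = n + 3 by ring, show n + 1 + 1 = n + 2 by ring]
    rw [hx] at h1
    linarith
  · rw [show n + 2 + 1 = n + 3 by ring, show n + 1 + 1 = n + 2 by ring]
    rw [hx] at h2
    linarith

theorem periodic_of {s : ℝ} {z : Fin 3 → ℤ} {n p : ℕ}
    (h : (tau (edge s))^[n + p] z = (tau (edge s))^[n] z) (j : ℕ) :
    fst (edge s) z (n + j + p) = fst (edge s) z (n + j) := by
  unfold fst
  rw [show n + j + p = j + (n + p) by ring, show n + j = j + n by ring,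
    Function.iterate_add_apply, h, ← Function.iterate_add_apply]

theorem sum_dif (s : ℝ) (z : Fin 3 → ℤ) (m p : ℕ) :
    ∑ j ∈ Finset.range p, dif s z (m + j) = fst (edge s) z (m + p) - fst (edge s) z m := by
  unfold dif
  have := Finset.sum_range_sub (fun j => fst (edge s) z (m + j)) p
  simpa [Nat.add_assoc] using this

theorem exact_rec {s : ℝ} {z : Fin 3 → ℤ} {n p : ℕ} (hp : 1 ≤ p)
    (h : (tau (edge s))^[n + p] z = (tau (edge s))^[n] z) (j : ℕ) :
    (dif s z (n + j + 2) : ℝ) + s * dif s z (n + j + 1) + dif s z (n + j) = 0 := by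
  have hsum : ∀ i, ∑ k ∈ Finset.range p, (dif s z (n + j + i + k) : ℝ) = 0 := by
    intro i
    have h1 := sum_dif s z (n + j + i) p
    have h2 := periodic_of h (j + i)
    rw [show n + (j + i) + p = n + j + i + p by ring, show n + (j + i) = n + j + i by ring] at h2
    rw [h2, sub_self] at h1
    exact_mod_cast h1
  have htot : ∑ k ∈ Finset.range p, ((dif s z (n + j + k + 2) : ℝ) +
      s * dif s z (n + j + k + 1) + dif s z (n + j + k)) = 0 := by
    rw [Finset.sum_add_distrib, Finset.sum_add_distrib, ← Finset.mul_sum]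
    have a0 := hsum 0
    have a1 := hsum 1
    have a2 := hsum 2
    have b2 : ∑ k ∈ Finset.range p, (dif s z (n + j + k + 2) : ℝ) = 0 := by
      rw [← a2]
      exact Finset.sum_congr rfl fun k _ => by rw [show n + j + k + 2 = n + j + 2 + k by ring]
    have b1 : ∑ k ∈ Finset.range p, (dif s z (n + j + k + 1) : ℝ) = 0 := by
      rw [← a1]
      exact Finset.sum_congr rfl fun k _ => by rw [show n + j + k + 1 = n + j + 1 + k by ring]
    rw [b2, b1]
    simpa using a0
  have hz := (Finset.sum_eq_zero_iff_of_nonneg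
    (fun k _ => (dif_bounds s z (n + j + k)).1)).mp htot 0 (Finset.mem_range.mpr (by omega))
  simpa using hz

theorem dvd_pow_of {s : ℝ} {z : Fin 3 → ℤ} {n p : ℕ} (hp : 1 ≤ p)
    (h : (tau (edge s))^[n + p] z = (tau (edge s))^[n] z) (g : ℤ)
    (hg : ∀ x : ℤ, (∃ m : ℤ, s * x = m) → g ∣ x) (k : ℕ) :
    ∀ j, g ^ k ∣ dif s z (n + j) := by
  induction k with
  | zero => intro j; simp
  | succ k ih =>
    have hstep : ∀ j, g ^ (k + 1) ∣ dif s z (n + j + 1) := by
      intro j
      by_cases hg0 : g = 0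
      · -- then every admissible integer is zero
        have h1 : (0 : ℤ) ∣ dif s z (n + j + 1) := by
          rw [← hg0]
          apply hg
          refine ⟨-(dif s z (n + j + 2) + dif s z (n + j)), ?_⟩
          have := exact_rec hp h j
          push_cast; linarith
        rw [zero_dvd_iff] at h1
        rw [h1]; exact dvd_zero _
      · obtain ⟨c0, hc0⟩ := ih j
        obtain ⟨c1, hc1⟩ := ih (j + 1)
        obtain ⟨c2, hc2⟩ := ih (j + 2)
        rw [show n + (j + 1) = n + j + 1 by ring] at hc1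
        rw [show n + (j + 2) = n + j + 2 by ring] at hc2
        have hx := exact_rec hp h j
        rw [hc0, hc1, hc2] at hx
        have hgk : ((g : ℝ) ^ k) ≠ 0 := pow_ne_zero _ (by exact_mod_cast hg0)
        have h2 : g ∣ c1 := by
          apply hg
          refine ⟨-(c2 + c0), ?_⟩
          push_cast at hx ⊢
          have : (g : ℝ) ^ k * (c2 + s * c1 + c0) = 0 := by linarith
          rcases mul_eq_zero.mp this with h3 | h3
          · exact absurd h3 hgk
          · linarith
        rw [hc1, pow_succ]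
        exact mul_dvd_mul_left _ h2
    intro j
    rcases j with _ | j
    · have h3 := hstep (p - 1)
      have h4 : dif s z (n + (p - 1) + 1) = dif s z (n + 0) := by
        rw [show n + (p - 1) + 1 = n + 0 + p by omega]
        unfold dif
        have e1 := periodic_of h 1
        have e0 := periodic_of h 0
        rw [show n + 0 + p + 1 = n + 1 + p by ring, e1, e0]
      rw [h4] at h3
      exact h3
    · exact hstep j

theorem dif_zero {s : ℝ} (hs : ∀ m : ℤ, s ≠ m) {z : Fin 3 → ℤ} {n p : ℕ} (hp : 1 ≤ p)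
    (h : (tau (edge s))^[n + p] z = (tau (edge s))^[n] z) (j : ℕ) : dif s z (n + j) = 0 := by
  -- the integers x with s * x integral form an ideal of ℤ
  let I : AddSubgroup ℤ :=
    { carrier := {x | ∃ m : ℤ, s * x = m}
      zero_mem' := ⟨0, by simp⟩
      add_mem' := by
        rintro a b ⟨m, hm⟩ ⟨l, hl⟩
        exact ⟨m + l, by push_cast; linarith⟩
      neg_mem' := by
        rintro a ⟨m, hm⟩
        exact ⟨-m, by push_cast; linarith⟩ }
  obtain ⟨g, hg⟩ := Int.subgroup_cyclic I
  have hgI : g ∈ I := by rw [hg]; exact AddSubgroup.mem_closure_singleton_self g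
  have hdiv : ∀ x : ℤ, (∃ m : ℤ, s * x = m) → g ∣ x := by
    intro x hx
    have : x ∈ I := hx
    rw [hg, AddSubgroup.mem_closure_singleton] at this
    obtain ⟨k, hk⟩ := this
    exact ⟨k, by rw [← hk]; simp [mul_comm]⟩
  have hne : ¬ IsUnit g := by
    intro hu
    obtain ⟨m, hm⟩ := hgI
    rcases Int.isUnit_iff.mp hu with h1 | h1
    · rw [h1] at hm; exact hs m (by simpa using hm)
    · rw [h1] at hm; exact hs (-m) (by push_cast at hm ⊢; linarith)
  by_contra hd
  have hfin : FiniteMultiplicity g (dif s z (n + j)) := by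
    rw [Int.finiteMultiplicity_iff]
    refine ⟨?_, hd⟩
    intro h1
    exact hne (Int.isUnit_iff_natAbs_eq.mpr h1)
  obtain ⟨k, hk⟩ := hfin
  exact hk (dvd_pow_of hp h g hdiv (k + 1) j)

theorem dif_back {s : ℝ} {z : Fin 3 → ℤ} {n : ℕ} (h1 : dif s z (n + 1) = 0)
    (h2 : dif s z (n + 2) = 0) : dif s z n = 0 := by
  have h := dif_bounds s z n
  rw [h1, h2] at h
  simp only [Int.cast_zero, mul_zero, zero_add] at h
  have a : (0 : ℤ) ≤ dif s z n := by exact_mod_cast h.1
  have b : dif s z n < 1 := by exact_mod_cast h.2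
  omega

theorem dif_all {s : ℝ} {z : Fin 3 → ℤ} :
    ∀ n : ℕ, dif s z n = 0 → dif s z (n + 1) = 0 → dif s z 0 = 0 ∧ dif s z 1 = 0 := by
  intro n
  induction n with
  | zero => intro h0 h1; exact ⟨h0, h1⟩
  | succ n ih =>
    intro h0 h1
    exact ih (dif_back h0 h1) h0

theorem const_of_ultPeriodic {s : ℝ} (hs : ∀ m : ℤ, s ≠ m) {z : Fin 3 → ℤ}
    (h : UltPeriodic (edge s) z) : z 0 = z 1 ∧ z 1 = z 2 := by
  obtain ⟨n, p, hp, h⟩ := h
  have h0 := dif_zero hs hp h 0
  have h1 := dif_zero hs hp h 1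
  obtain ⟨h2, h3⟩ := dif_all n h0 h1
  unfold dif at h2 h3
  have e0 : fst (edge s) z 0 = z 0 := rfl
  have e1 : fst (edge s) z 1 = z 1 := by
    have := iter_one (edge s) z 0
    simpa using this.symm
  have e2 : fst (edge s) z 2 = z 2 := by
    have := iter_two (edge s) z 0
    simpa using this.symm
  rw [e1, e0] at h2
  rw [e2, e1] at h3
  constructor <;> omega

theorem ultPeriodic_of_const {s : ℝ} {z : Fin 3 → ℤ} (h : z 0 = z 1 ∧ z 1 = z 2) :
    UltPeriodic (edge s) z := by
  refine ⟨0, 1, le_refl 1, ?_⟩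
  have h1 : tau (edge s) z = z := by
    funext i
    fin_cases i
    · change tau (edge s) z 0 = z 0
      rw [tau_zero, h.1]
    · change tau (edge s) z 1 = z 1
      rw [tau_one, h.2]
    · change tau (edge s) z 2 = z 2
      rw [tau_two, h.1, h.2]
      have : edge s 0 * (z 2 : ℝ) + edge s 1 * (z 2 : ℝ) + edge s 2 * (z 2 : ℝ) =
          ((-(z 2) : ℤ) : ℝ) := by
        change (-1 : ℝ) * (z 2 : ℝ) + (1 - s) * (z 2 : ℝ) + (s - 1) * (z 2 : ℝ) = _
        push_cast; ring
      rw [this, Int.floor_intCast, neg_neg]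
  simpa using h1

theorem norm_root {s : ℝ} (hs : |s| < 2) {w : ℂ} (h : w ^ 2 + s * w + 1 = 0) :
    ‖w‖ = 1 ∧ w.im ≠ 0 := by
  have hre := congrArg Complex.re h
  have him := congrArg Complex.im h
  simp only [pow_two, Complex.add_re, Complex.mul_re, Complex.ofReal_re, Complex.ofReal_im,
    Complex.add_im, Complex.mul_im, Complex.zero_re, Complex.zero_im, zero_mul, sub_zero,
    add_zero, Complex.one_re, Complex.one_im] at hre him
  have hs2 : s ^ 2 < 4 := by
    have := abs_lt.mp hs
    nlinarith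
  have hy : w.im * (2 * w.re + s) = 0 := by linarith
  have hine : w.im ≠ 0 := by
    intro h0
    rw [h0] at hre
    nlinarith [sq_nonneg (2 * w.re + s)]
  have hx : w.re = -(s / 2) := by
    rcases mul_eq_zero.mp hy with h0 | h0
    · exact absurd h0 hine
    · linarith
  refine ⟨?_, hine⟩
  have hn : ‖w‖ ^ 2 = 1 := by
    rw [Complex.sq_norm, Complex.normSq_apply]
    rw [hx] at hre ⊢
    nlinarith
  have := norm_nonneg w
  nlinarith [sq_nonneg (‖w‖ - 1)]

theorem edge_mem_EC {s : ℝ} (hs : |s| < 2) : edge s ∈ EC 3 := by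
  have hs2 : s ^ 2 < 4 := by
    have := abs_lt.mp hs
    nlinarith
  constructor
  · apply mem_closure_of_roots
    intro w hw
    rw [chi_edge, IsRoot.def] at hw
    simp only [eval_mul, eval_sub, eval_X, eval_one, eval_add, eval_pow, eval_C] at hw
    rcases mul_eq_zero.mp hw with h | h
    · have : w = 1 := by linear_combination h
      rw [this]; simp
    · exact (norm_root hs h).1.le
  · have hpos : 0 ≤ 1 - s ^ 2 / 4 := by linarith
    let w : ℂ := ⟨-(s / 2), Real.sqrt (1 - s ^ 2 / 4)⟩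
    have hw : w ^ 2 + s * w + 1 = 0 := by
      apply Complex.ext
      · simp only [pow_two, Complex.add_re, Complex.mul_re, Complex.ofReal_re, Complex.ofReal_im,
          zero_mul, sub_zero, Complex.one_re, Complex.zero_re, w]
        have hpos' : 0 ≤ 1 - s * s / 4 := by nlinarith
        rw [Real.mul_self_sqrt hpos']
        ring
      · simp only [pow_two, Complex.add_im, Complex.mul_im, Complex.ofReal_re, Complex.ofReal_im,
          zero_mul, add_zero, Complex.one_im, Complex.zero_im, w]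
        ring
    obtain ⟨h1, h2⟩ := norm_root hs hw
    refine ⟨w, h2, h1, ?_⟩
    rw [chi_edge, IsRoot.def]
    simp only [eval_mul, eval_sub, eval_X, eval_one, eval_add, eval_pow, eval_C]
    rw [hw, mul_zero]

theorem fst_int {m : ℤ} (z : Fin 3 → ℤ) (n : ℕ) :
    fst (edge (m : ℝ)) z (n + 3) = fst (edge (m : ℝ)) z n +
      (m - 1) * fst (edge (m : ℝ)) z (n + 1) + (1 - m) * fst (edge (m : ℝ)) z (n + 2) := by
  have h := fst_rec (edge (m : ℝ)) z n
  rw [h]
  have e0 : edge (m : ℝ) 0 = -1 := rfl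
  have e1 : edge (m : ℝ) 1 = 1 - m := rfl
  have e2 : edge (m : ℝ) 2 = m - 1 := rfl
  rw [e0, e1, e2]
  have : (-1 : ℝ) * (fst (edge (m : ℝ)) z n : ℝ) + (1 - (m : ℝ)) * (fst (edge (m : ℝ)) z (n + 1) : ℝ)
      + ((m : ℝ) - 1) * (fst (edge (m : ℝ)) z (n + 2) : ℝ) =
      ((-(fst (edge (m : ℝ)) z n + (m - 1) * fst (edge (m : ℝ)) z (n + 1)
        + (1 - m) * fst (edge (m : ℝ)) z (n + 2)) : ℤ) : ℝ) := by
    push_cast; ring
  rw [this, Int.floor_intCast, neg_neg]

theorem ultPeriodic_of_int {m : ℤ} (hm : |(m : ℝ)| < 2) (z : Fin 3 → ℤ) :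
    UltPeriodic (edge (m : ℝ)) z := by
  have hm1 : -2 < m ∧ m < 2 := by
    have := abs_lt.mp hm
    constructor
    · exact_mod_cast this.1
    · exact_mod_cast this.2
  refine ⟨0, 12, by norm_num, ?_⟩
  rw [iter_eq, iter_eq]
  have key : ∀ n, fst (edge (m : ℝ)) z (n + 12) = fst (edge (m : ℝ)) z n := by
    have hr := fst_int (m := m) z
    obtain ⟨h1, h2⟩ := hm1
    interval_cases m
    · have hr6 : ∀ n, fst (edge ((-1 : ℤ) : ℝ)) z (n + 6) = fst (edge ((-1 : ℤ) : ℝ)) z n := by
        intro n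
        have a0 := hr n
        have a1 := hr (n + 1)
        have a2 := hr (n + 2)
        have a3 := hr (n + 3)
        simp only [Nat.add_assoc, Nat.reduceAdd] at a0 a1 a2 a3
        omega
      intro n
      rw [show n + 12 = (n + 6) + 6 by ring, hr6, hr6]
    · have hr4 : ∀ n, fst (edge ((0 : ℤ) : ℝ)) z (n + 4) = fst (edge ((0 : ℤ) : ℝ)) z n := by
        intro n
        have a0 := hr n
        have a1 := hr (n + 1)
        simp only [Nat.add_assoc, Nat.reduceAdd] at a0 a1
        omega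
      intro n
      rw [show n + 12 = ((n + 4) + 4) + 4 by ring, hr4, hr4, hr4]
    · have hr3 : ∀ n, fst (edge ((1 : ℤ) : ℝ)) z (n + 3) = fst (edge ((1 : ℤ) : ℝ)) z n := by
        intro n
        have a0 := hr n
        omega
      intro n
      rw [show n + 12 = (((n + 3) + 3) + 3) + 3 by ring, hr3, hr3, hr3, hr3]
  have k0 := key 0
  have k1 := key 1
  have k2 := key 2
  simp only [Nat.zero_add] at k0 ⊢
  rw [show 12 + 1 = 1 + 12 by norm_num, show 12 + 2 = 2 + 12 by norm_num, k0, k1, k2]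

/-- On the edge `t = -1` of `E_3^(C)`: for `s ∈ {-1, 0, 1}` all orbits of `τ_r` are ultimately
periodic, and for all other `s ∈ (-2, 2)` the only ultimately periodic orbits are those of the
constant vectors `(a, a, a)`. -/
theorem result (s : ℝ) (hs : |s| < 2) :
    edge s ∈ EC 3 ∧ ∀ z : Fin 3 → ℤ,
      UltPeriodic (edge s) z ↔ ((s = -1 ∨ s = 0 ∨ s = 1) ∨ (z 0 = z 1 ∧ z 1 = z 2)) := by
  refine ⟨edge_mem_EC hs, fun z => ⟨fun h => ?_, fun h => ?_⟩⟩
  · by_cases hi : ∃ m : ℤ, s = m
    · left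
      obtain ⟨m, rfl⟩ := hi
      have h1 := abs_lt.mp hs
      have h2 : -2 < m := by exact_mod_cast h1.1
      have h3 : m < 2 := by exact_mod_cast h1.2
      interval_cases m <;> norm_num
    · right
      push Not at hi
      exact const_of_ultPeriodic hi h
  · rcases h with h | h
    · rcases h with h | h | h
      · have := ultPeriodic_of_int (m := -1) (by norm_num) z
        rw [h]; simpa using this
      · have := ultPeriodic_of_int (m := 0) (by norm_num) z
        rw [h]; simpa using this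
      · have := ultPeriodic_of_int (m := 1) (by norm_num) z
        rw [h]; simpa using this
    · exact ultPeriodic_of_const h

end Pool.Agent.Results.MP_e7d72a_nt.EdgeDimThree
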