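import Mathlib
import Pool.Agent.H93.SRS

/-!
Shift radix systems: the inclusion of `E_d^(C)` in `D_d` fails for every `d ≥ 4`, even when all
unimodular eigenvalues are simple and non-real.
-/

set_option autoImplicit false

namespace Pool.Agent.Results.MP_e7d72a_nt.SimpleNonReal

open Polynomial Pool.Agent.H93.SRS

/-! ### The parameter -/

/-- The last four entries are `9/10, 13/10, 19/10, 13/10`, all others vanish. -/
noncomputable def par (k : ℕ) : Fin (k + 4) → ℝ :=
  fun i => if (i : ℕ) = k then 9 / 10 else if (i : ℕ) = k + 1 then 13 / 10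
    else if (i : ℕ) = k + 2 then 19 / 10 else if (i : ℕ) = k + 3 then 13 / 10 else 0

theorem sum_par (k : ℕ) {R : Type*} [AddCommMonoid R] (f : ℝ → ℕ → R) (hf : ∀ n, f 0 n = 0) :
    ∑ i : Fin (k + 4), f (par k i) (i : ℕ) =
      f (9 / 10) k + (f (13 / 10) (k + 1) + (f (19 / 10) (k + 2) + f (13 / 10) (k + 3))) := by
  have h1 : ∑ i : Fin (k + 4), f (par k i) (i : ℕ) =
      ∑ i ∈ Finset.range (k + 4), f (if i = k then 9 / 10 else if i = k + 1 then 13 / 10
    else if i = k + 2 then 19 / 10 else if i = k + 3 then 13 / 10 else 0) i := by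
    rw [← Fin.sum_univ_eq_sum_range (fun i => f (if i = k then 9 / 10 else if i = k + 1 then 13 / 10
      else if i = k + 2 then 19 / 10 else if i = k + 3 then 13 / 10 else 0) i)]
    rfl
  rw [h1, Finset.sum_range_succ, Finset.sum_range_succ, Finset.sum_range_succ,
    Finset.sum_range_succ, Finset.sum_eq_zero]
  · simp [add_assoc]
  · intro i hi
    have hi' := Finset.mem_range.mp hi
    rw [if_neg (by omega), if_neg (by omega), if_neg (by omega), if_neg (by omega), hf]

theorem chi_par (k : ℕ) :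
    chi (par k) = X ^ k * ((X ^ 2 + 1) * (X ^ 2 + C (13 / 10) * X + C (9 / 10))) := by
  unfold chi
  have h := sum_par k (fun x n => (C (x : ℂ) * X ^ n : ℂ[X])) (by intro n; simp)
  rw [h]
  have e1 : (C ((9 / 10 : ℝ) : ℂ) : ℂ[X]) = C (9 / 10) := by push_cast; rfl
  have e2 : (C ((13 / 10 : ℝ) : ℂ) : ℂ[X]) = C (13 / 10) := by push_cast; rfl
  have e3 : (C ((19 / 10 : ℝ) : ℂ) : ℂ[X]) = 1 + C (9 / 10) := by
    rw [← C_1, ← C_add]; congr 1; push_cast; norm_num
  rw [e1, e2, e3]
  ring

theorem quad_lt (w : ℂ) (h : w ^ 2 + 13 / 10 * w + 9 / 10 = 0) : ‖w‖ < 1 := by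
  have hre := congrArg Complex.re h
  have him := congrArg Complex.im h
  have c1 : (13 / 10 : ℂ) = ((13 / 10 : ℝ) : ℂ) := by push_cast; rfl
  have c2 : (9 / 10 : ℂ) = ((9 / 10 : ℝ) : ℂ) := by push_cast; rfl
  rw [c1, c2] at hre him
  simp only [pow_two, Complex.add_re, Complex.mul_re, Complex.ofReal_re, Complex.ofReal_im,
    Complex.add_im, Complex.mul_im, Complex.zero_re, Complex.zero_im, zero_mul, sub_zero,
    add_zero] at hre him
  have hn : ‖w‖ ^ 2 = w.re * w.re + w.im * w.im := by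
    rw [Complex.sq_norm, Complex.normSq_apply]
  have hlt : ‖w‖ ^ 2 < 1 := by
    rw [hn]
    have hy : w.im * (2 * w.re + 13 / 10) = 0 := by linarith
    rcases mul_eq_zero.mp hy with h0 | h0
    · rw [h0] at hre
      nlinarith [sq_nonneg (w.re + 13 / 20)]
    · have hx : w.re = - (13 / 20) := by linarith
      rw [hx] at hre ⊢
      nlinarith
  nlinarith [norm_nonneg w]

theorem isRoot_par {k : ℕ} {w : ℂ} (h : (chi (par k)).IsRoot w) :
    ‖w‖ < 1 ∨ w ^ 2 + 1 = 0 := by
  rw [chi_par, IsRoot.def] at h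
  simp only [eval_mul, eval_pow, eval_X, eval_add, eval_one, eval_C] at h
  rcases mul_eq_zero.mp h with h | h
  · left
    have : w = 0 := by
      by_contra hw
      exact (pow_ne_zero k hw) h
    rw [this]; simp
  · rcases mul_eq_zero.mp h with h | h
    · right; exact h
    · left; exact quad_lt w h

theorem root_norm_le {k : ℕ} {w : ℂ} (h : (chi (par k)).IsRoot w) : ‖w‖ ≤ 1 := by
  rcases isRoot_par h with h | h
  · exact h.le
  · have h2 : w ^ 2 = -1 := by linear_combination h
    have h3 : ‖w‖ ^ 2 = 1 := by rw [← norm_pow, h2]; simp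
    nlinarith [norm_nonneg w]

theorem isRoot_I (k : ℕ) : (chi (par k)).IsRoot Complex.I := by
  rw [chi_par, IsRoot.def]
  simp

theorem par_mem_EC (k : ℕ) : par k ∈ EC (k + 4) :=
  ⟨mem_closure_of_roots _ fun _ hw => root_norm_le hw,
    Complex.I, by simp, by simp, isRoot_I k⟩

theorem simple_root {k : ℕ} {w : ℂ} (hw : (chi (par k)).IsRoot w) (h1 : ‖w‖ = 1) :
    w.im ≠ 0 ∧ (chi (par k)).rootMultiplicity w = 1 := by
  have h2 : w ^ 2 + 1 = 0 := by
    rcases isRoot_par hw with h | h
    · exact absurd h1 h.ne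
    · exact h
  have him : w.im ≠ 0 := by
    intro h0
    have hre := congrArg Complex.re h2
    simp only [pow_two, Complex.add_re, Complex.mul_re, Complex.one_re, Complex.zero_re, h0,
      mul_zero, sub_zero] at hre
    nlinarith [mul_self_nonneg w.re]
  refine ⟨him, ?_⟩
  have hw0 : w ≠ 0 := by
    intro h0; rw [h0] at him; simp at him
  have hwd : w - (-w) ≠ 0 := by
    intro h0; apply hw0; linear_combination h0 / 2
  have hfac : chi (par k) =
      (X - C w) * ((X + C w) * X ^ k * (X ^ 2 + C (13 / 10) * X + C (9 / 10))) := by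
    rw [chi_par]
    have h3 : (X ^ 2 + 1 : ℂ[X]) = (X - C w) * (X + C w) := by
      have : (C (w ^ 2) : ℂ[X]) = C (-1) := by congr 1; linear_combination h2
      rw [C_pow, C_neg, C_1] at this
      linear_combination this
    rw [h3]; ring
  have hne : ¬ ((X + C w) * X ^ k * (X ^ 2 + C (13 / 10) * X + C (9 / 10)) : ℂ[X]).IsRoot w := by
    intro h
    rw [IsRoot.def] at h
    simp only [eval_mul, eval_pow, eval_X, eval_add, eval_C] at h
    rcases mul_eq_zero.mp h with h | h
    · rcases mul_eq_zero.mp h with h | h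
      · apply hw0; linear_combination h / 2
      · exact pow_ne_zero k hw0 h
    · exact absurd h1 (quad_lt w h).ne
  have hne0 : chi (par k) ≠ 0 := by
    intro h0
    rw [h0] at hfac
    have := hfac.symm
    rcases mul_eq_zero.mp this with h | h
    · exact X_sub_C_ne_zero w h
    · apply hne; rw [h]; simp [IsRoot.def]
  rw [hfac] at hne0 ⊢
  rw [rootMultiplicity_mul hne0, rootMultiplicity_X_sub_C_self,
    rootMultiplicity_eq_zero hne]

/-! ### The orbit -/

/-- The unbounded orbit, as a sequence. -/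
def seq (n : ℕ) : ℤ :=
  match n % 8 with
  | 0 => 0
  | 1 => -((n / 8 : ℕ) : ℤ)
  | 2 => -3
  | 3 => 2 + ((n / 8 : ℕ) : ℤ)
  | 4 => 4
  | 5 => -5 - ((n / 8 : ℕ) : ℤ)
  | 6 => -1
  | _ => 4 + ((n / 8 : ℕ) : ℤ)

theorem seq_rec (n : ℕ) :
    seq (n + 4) = -⌊(9 / 10 : ℝ) * seq n + (13 / 10 * seq (n + 1) + (19 / 10 * seq (n + 2)
      + 13 / 10 * seq (n + 3)))⌋ := by
  have h8 : n % 8 < 8 := Nat.mod_lt _ (by norm_num)
  obtain ⟨q, hq⟩ : ∃ q, q = n / 8 := ⟨_, rfl⟩
  have key : ∀ v : ℤ, ((v : ℝ) ≤ (9 / 10 : ℝ) * seq n + (13 / 10 * seq (n + 1) +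
      (19 / 10 * seq (n + 2) + 13 / 10 * seq (n + 3)))) →
      ((9 / 10 : ℝ) * seq n + (13 / 10 * seq (n + 1) +
      (19 / 10 * seq (n + 2) + 13 / 10 * seq (n + 3))) < v + 1) → seq (n + 4) = - v →
      seq (n + 4) = -⌊(9 / 10 : ℝ) * seq n + (13 / 10 * seq (n + 1) + (19 / 10 * seq (n + 2)
      + 13 / 10 * seq (n + 3)))⌋ := by
    intro v h1 h2 h3
    rw [h3, Int.floor_eq_iff.mpr ⟨h1, h2⟩]
  have hs : ∀ j, seq (n + j) = match (n % 8 + j) % 8 with
      | 0 => 0
      | 1 => -((q + (n % 8 + j) / 8 : ℕ) : ℤ)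
      | 2 => -3
      | 3 => 2 + ((q + (n % 8 + j) / 8 : ℕ) : ℤ)
      | 4 => 4
      | 5 => -5 - ((q + (n % 8 + j) / 8 : ℕ) : ℤ)
      | 6 => -1
      | _ => 4 + ((q + (n % 8 + j) / 8 : ℕ) : ℤ) := by
    intro j
    have e1 : (n + j) % 8 = (n % 8 + j) % 8 := by omega
    have e2 : (n + j) / 8 = q + (n % 8 + j) / 8 := by omega
    unfold seq
    rw [e1, e2]
  have hs0 := hs 0
  have hs1 := hs 1
  have hs2 := hs 2
  have hs3 := hs 3
  have hs4 := hs 4
  rw [Nat.add_zero] at hs0
  generalize n % 8 = m at h8 hs0 hs1 hs2 hs3 hs4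
  apply key (-seq (n + 4))
  all_goals (interval_cases m <;> norm_num at hs0 hs1 hs2 hs3 hs4 <;>
    rw [hs4] <;> try rw [hs0, hs1, hs2, hs3])
  all_goals push_cast
  all_goals linarith

theorem tau_orbit (k n : ℕ) :
    (tau (par k))^[n] (fun i : Fin (k + 4) => seq (i : ℕ)) =
      fun i : Fin (k + 4) => seq (n + (i : ℕ)) := by
  induction n with
  | zero => simp
  | succ n ih =>
    rw [Function.iterate_succ_apply', ih]
    funext i
    unfold tau
    by_cases h : (i : ℕ) + 1 < k + 4
    · rw [dif_pos h]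
      change seq (n + (i + 1)) = seq (n + 1 + i)
      congr 1; omega
    · rw [dif_neg h]
      have hi : (i : ℕ) = k + 3 := by have := i.2; omega
      have hsum : ∑ j : Fin (k + 4), par k j * ((seq (n + (j : ℕ)) : ℤ) : ℝ) =
          (9 / 10 : ℝ) * seq (n + k) + (13 / 10 * seq (n + k + 1) + (19 / 10 * seq (n + k + 2)
      + 13 / 10 * seq (n + k + 3))) := by
        have := sum_par k (fun x m => x * ((seq (n + m) : ℤ) : ℝ)) (by intro m; simp)
        simpa only [Nat.add_assoc] using this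
      rw [hsum, hi]
      have := seq_rec (n + k)
      rw [show n + 1 + (k + 3) = n + k + 4 by omega]
      exact this.symm

theorem not_ultPeriodic (k : ℕ) : ¬ UltPeriodic (par k) (fun i : Fin (k + 4) => seq (i : ℕ)) := by
  rintro ⟨n, p, hp, h⟩
  rw [tau_orbit, tau_orbit] at h
  have h0 : ∀ m, seq (n + p + m) = seq (n + m) := by
    have h00 : seq (n + p + 0) = seq (n + 0) := congrFun h ⟨0, by omega⟩
    have h01 : seq (n + p + 1) = seq (n + 1) := congrFun h ⟨1, by omega⟩
    have h02 : seq (n + p + 2) = seq (n + 2) := congrFun h ⟨2, by omega⟩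
    have h03 : seq (n + p + 3) = seq (n + 3) := congrFun h ⟨3, by omega⟩
    have aux : ∀ m, seq (n + p + m) = seq (n + m) ∧ seq (n + p + m + 1) = seq (n + m + 1) ∧
        seq (n + p + m + 2) = seq (n + m + 2) ∧ seq (n + p + m + 3) = seq (n + m + 3) := by
      intro m
      induction m with
      | zero => exact ⟨h00, h01, h02, h03⟩
      | succ m ih =>
        obtain ⟨i0, i1, i2, i3⟩ := ih
        refine ⟨i1, i2, i3, ?_⟩
        have e1 := seq_rec (n + p + m)
        have e2 := seq_rec (n + m)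
        rw [i0, i1, i2, i3] at e1
        rw [show n + p + (m + 1) + 3 = n + p + m + 4 by omega,
          show n + (m + 1) + 3 = n + m + 4 by omega, e1, e2]
    exact fun m => (aux m).1
  have h1 : ∀ j m, seq (n + j * p + m) = seq (n + m) := by
    intro j
    induction j with
    | zero => intro m; simp
    | succ j ih =>
      intro m
      have := h0 (j * p + m)
      rw [show n + (j + 1) * p + m = n + p + (j * p + m) by ring, this,
        show n + (j * p + m) = n + j * p + m by ring, ih]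
  have h2 := h1 8 (7 * n + 1)
  have e1 : (n + 8 * p + (7 * n + 1)) % 8 = 1 := by omega
  have e2 : (n + 8 * p + (7 * n + 1)) / 8 = n + p := by omega
  have e3 : (n + (7 * n + 1)) % 8 = 1 := by omega
  have e4 : (n + (7 * n + 1)) / 8 = n := by omega
  unfold seq at h2
  rw [e1, e2, e3, e4] at h2
  simp only at h2
  omega

/-- For every `d ≥ 4` there is a parameter `r ∈ E_d^(C)`, all of whose unimodular eigenvalues are
non-real and simple, such that some orbit of `τ_r` is not ultimately periodic. -/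
theorem result (d : ℕ) (hd : 4 ≤ d) :
    ∃ r ∈ EC d, (∀ w : ℂ, (chi r).IsRoot w → ‖w‖ = 1 →
        w.im ≠ 0 ∧ (chi r).rootMultiplicity w = 1) ∧
      ∃ z : Fin d → ℤ, ¬ UltPeriodic r z := by
  obtain ⟨k, rfl⟩ := Nat.exists_eq_add_of_le hd
  rw [Nat.add_comm 4 k]
  exact ⟨par k, par_mem_EC k, fun w hw h1 => simple_root hw h1, _, not_ultPeriodic k⟩

end Pool.Agent.Results.MP_e7d72a_nt.SimpleNonReal
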